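import Pool.Agent.H14.AVR.Stmts

/-!
# AVR, module ISO: a common isotropic vector makes the class trivial
-/

set_option autoImplicit false

namespace Pool.AVR

open Polynomial Matrix

namespace ISOaux

variable {K : Type} [Field K]

theorem cub_monic (a b c : K) : (cub a b c).Monic := by
  unfold cub
  monicity!

theorem cub_deg (a b c : K) : (cub a b c).natDegree = 3 := by
  unfold cub
  compute_degree!

theorem cub_ne_one (a b c : K) : cub a b c ≠ 1 := by
  intro h
  have := cub_deg a b c
  rw [h] at this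
  simp at this

theorem rem_deg (a b c : K) (p : K[X]) : (p %ₘ cub a b c).natDegree < 3 := by
  have := natDegree_modByMonic_lt p (cub_monic a b c) (cub_ne_one a b c)
  rwa [cub_deg] at this

theorem rem_eq_self (a b c : K) (p : K[X]) (hp : p.natDegree < 3) : p %ₘ cub a b c = p := by
  rw [modByMonic_eq_self_iff (cub_monic a b c)]
  apply degree_lt_degree
  rwa [cub_deg]

theorem rem_congr (a b c : K) (p q : K[X]) (h : cub a b c ∣ p - q) :
    p %ₘ cub a b c = q %ₘ cub a b c := by
  have h1 : (p - q) %ₘ cub a b c = 0 := (modByMonic_eq_zero_iff_dvd (cub_monic a b c)).2 h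
  rw [sub_modByMonic] at h1
  exact sub_eq_zero.1 h1

theorem dvd_sub_rem (a b c : K) (p : K[X]) : cub a b c ∣ p - p %ₘ cub a b c := by
  have := modByMonic_add_div p (cub a b c)
  exact ⟨p /ₘ cub a b c, by linear_combination -this⟩

/-- if `τ(z) = τ(X z) = 0` then `z` is a constant modulo the cubic -/
theorem const_of_tau (a b c : K) (z : K[X]) (h0 : tau a b c z = 0) (h1 : tau a b c (X * z) = 0) :
    ∃ k : K, cub a b c ∣ z - C k := by
  set r := z %ₘ cub a b c with hr
  have hr3 : r.natDegree < 3 := rem_deg a b c z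
  have hc2 : r.coeff 2 = 0 := h0
  have hX : (X * z) %ₘ cub a b c = X * r := by
    rw [rem_congr a b c (X * z) (X * r)]
    · apply rem_eq_self
      by_cases hr0 : r = 0
      · simp [hr0]
      · rw [natDegree_X_mul hr0]
        have : r.natDegree ≠ 2 := by
          intro h
          apply hr0
          rw [← leadingCoeff_eq_zero, leadingCoeff, h, hc2]
        omega
    · rw [← mul_sub]
      exact Dvd.dvd.mul_left (dvd_sub_rem a b c z) X
  have hc1 : r.coeff 1 = 0 := by
    have : ((X * z) %ₘ cub a b c).coeff 2 = 0 := h1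
    rw [hX, show 2 = 1 + 1 from rfl, coeff_X_mul] at this
    exact this
  refine ⟨r.coeff 0, ?_⟩
  have hC : r = C (r.coeff 0) := by
    ext n
    rcases n with _ | _ | _ | n
    · simp
    · simp [hc1]
    · simp [hc2]
    · rw [coeff_eq_zero_of_natDegree_lt (by omega), coeff_C_ne_zero (by omega)]
  rw [← hC]
  exact dvd_sub_rem a b c z

/-- companion matrix -/
def CC (a b c : K) : Matrix (Fin 3) (Fin 3) K := !![0, 0, -c; 1, 0, -b; 0, 1, -a]

theorem aeval_cub (a b c : K) : aeval (CC a b c) (cub a b c) = 0 := by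
  unfold cub
  simp only [map_add, map_mul, map_pow, aeval_X, aeval_C]
  ext i j
  fin_cases i <;> fin_cases j <;>
    simp [CC, pow_succ, Matrix.mul_apply, Fin.sum_univ_three, Matrix.algebraMap_matrix_apply] <;>
    ring

theorem det_sub (a b c x : K) :
    (aeval (CC a b c) (C x - X)).det = x ^ 3 + a * x ^ 2 + b * x + c := by
  simp only [map_sub, aeval_X, aeval_C]
  rw [Matrix.det_fin_three]
  simp [CC, Matrix.algebraMap_matrix_apply]
  ring

end ISOaux

open ISOaux in
theorem iso_thm : ISOStmt := by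
  intro K _ h2 a b c x y hsep hon hy B ⟨e, he, heX⟩ hB
  have e00 := he 0 0
  have e02 := he 0 2
  have x00 := heX 0 0
  rw [hB] at x00
  have A00 : AA K 0 0 = 0 := by simp [AA]
  have A02 : AA K 0 2 = 1 := by simp [AA]
  rw [A00] at e00
  rw [A02] at e02
  obtain ⟨k, hk⟩ := const_of_tau a b c _ e00 x00
  have hy2 : y ^ 2 ≠ 0 := pow_ne_zero 2 hy
  -- `(x - X) hh = 1`
  have hinv : cub a b c ∣ (C x - X) * hh a b x y - 1 := by
    refine ⟨-C ((y ^ 2)⁻¹), ?_⟩
    unfold hh cub
    have hc : C ((y ^ 2)⁻¹) * C (x ^ 3 + a * x ^ 2 + b * x + c) = (1 : K[X]) := by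
      rw [← C_mul, ← hon, inv_mul_cancel₀ hy2, C_1]
    simp only [map_add, map_mul, map_pow] at hc ⊢
    linear_combination hc
  have hsq : cub a b c ∣ e 0 ^ 2 - C k * (C x - X) := by
    have h1 : cub a b c ∣ (C x - X) * (e 0 * e 0 * hh a b x y - C k) := Dvd.dvd.mul_left hk _
    have h2' : cub a b c ∣ e 0 ^ 2 * ((C x - X) * hh a b x y - 1) := Dvd.dvd.mul_left hinv _
    have h3 := dvd_sub h1 h2'
    have h4 : (C x - X) * (e 0 * e 0 * hh a b x y - C k) -
        e 0 ^ 2 * ((C x - X) * hh a b x y - 1) = e 0 ^ 2 - C k * (C x - X) := by ring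
    rwa [h4] at h3
  have hk0 : k ≠ 0 := by
    intro hk0
    rw [hk0, C_0, zero_mul, sub_zero] at hsq
    have h5 : cub a b c ∣ e 0 := (hsep.squarefree.dvd_pow_iff_dvd two_ne_zero).1 hsq
    have h6 : tau a b c (e 0 * e 2 * hh a b x y) = 0 := by
      unfold tau
      rw [(modByMonic_eq_zero_iff_dvd (cub_monic a b c)).2
        (Dvd.dvd.mul_right (Dvd.dvd.mul_right h5 _) _)]
      simp
    rw [h6] at e02
    exact zero_ne_one e02
  -- norms
  have hN : (aeval (CC a b c) (e 0)).det ^ 2 = k ^ 3 * y ^ 2 := by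
    obtain ⟨w, hw⟩ := hsq
    have h7 : e 0 ^ 2 = C k * (C x - X) + cub a b c * w := by linear_combination hw
    have h8 := congrArg (fun p => (aeval (CC a b c) p).det) h7
    rw [map_pow, map_add, map_mul, map_mul, aeval_cub, zero_mul, add_zero, Matrix.det_pow,
      Matrix.det_mul, det_sub, ← hon] at h8
    rw [h8, aeval_C]
    congr 1
    rw [Matrix.det_fin_three]
    simp [Matrix.algebraMap_matrix_apply]
    ring
  set N := (aeval (CC a b c) (e 0)).det with hNdef
  have hkk : (N / (k * y)) ^ 2 = k := by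
    rw [div_pow, hN]
    field_simp
  have hκ : N / (k * y) ≠ 0 := by
    intro h
    rw [h] at hkk
    apply hk0
    rw [← hkk]
    ring
  refine ⟨C ((N / (k * y))⁻¹) * e 0, ?_⟩
  have h9 : cub a b c ∣ (-C k⁻¹) * (e 0 ^ 2 - C k * (C x - X)) := Dvd.dvd.mul_left hsq _
  have h10 : (-C k⁻¹) * (e 0 ^ 2 - C k * (C x - X)) =
      C x - X - (C ((N / (k * y))⁻¹) * e 0) ^ 2 := by
    rw [mul_pow, ← C_pow, inv_pow, hkk]
    have : C k⁻¹ * C k = (1 : K[X]) := by rw [← C_mul, inv_mul_cancel₀ hk0, C_1]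
    linear_combination (C x - X) * this
  rwa [h10] at h9

end Pool.AVR
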