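import Pool.Agent.H14.AVR.Stmts2

/-!
# AVR, module PLL: the approximate parallelogram law
-/

set_option autoImplicit false

namespace Pool.AVR

open Polynomial Matrix

namespace PLLaux

variable {K : Type} [Field K] [DecidableEq K] (W : WeierstrassCurve K)

theorem ev (v : Fin 3 → K) : (fun i => (W.addSubMap i).eval v) =
    ![v 0 ^ 2 - W.b₄ * v 0 * v 2 - W.b₆ * v 1 * v 2 - W.b₈ * v 2 ^ 2,
      2 * v 1 * v 0 + W.b₂ * v 0 * v 2 + W.b₄ * v 1 * v 2 + W.b₆ * v 2 ^ 2,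
      v 1 ^ 2 - 4 * v 0 * v 2] := by
  funext i
  unfold WeierstrassCurve.addSubMap
  fin_cases i <;> simp

open WeierstrassCurve.Affine.Point in
theorem dbl [W.IsElliptic] (P : W.toAffine.Point) : ∃ u : K, u ≠ 0 ∧
    (fun i => (W.addSubMap i).eval (sym2x P P)) = u • sym2x (P + P) 0 := by
  rcases P with _ | ⟨x, y, h⟩
  · refine ⟨1, one_ne_zero, ?_⟩
    rw [← zero_def, add_zero, sym2x_zero_zero, ev]
    simp
  · have he := (WeierstrassCurve.Affine.equation_iff _ _).1 h.1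
    by_cases hy : y = W.toAffine.negY x y
    · rw [add_self_of_Y_eq hy, sym2x_zero_zero, sym2x_some_some]
      have hne := WeierstrassCurve.addSubMap_ne_zero W
        (x := ![x * x, x + x, 1]) (by intro h; simpa using congrFun h 2)
      rw [ev] at hne ⊢
      simp only [Matrix.cons_val_zero, Matrix.cons_val_one, Matrix.cons_val] at hne ⊢
      have h0 : 2 * y + W.a₁ * x + W.a₃ = 0 := by
        rw [WeierstrassCurve.Affine.negY] at hy
        linear_combination hy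
      have h1 : 2 * (x + x) * (x * x) + W.b₂ * (x * x) * 1 + W.b₄ * (x + x) * 1 + W.b₆ * 1 ^ 2 =
          0 := by
        have : (2 * y + W.a₁ * x + W.a₃) ^ 2 = 0 := by rw [h0]; ring
        rw [← this]
        unfold WeierstrassCurve.b₂ WeierstrassCurve.b₄ WeierstrassCurve.b₆
        linear_combination -4 * he
      have h2 : (x + x) ^ 2 - 4 * (x * x) * 1 = 0 := by ring
      rw [h1, h2] at hne ⊢
      refine ⟨(x * x) ^ 2 - W.b₄ * (x * x) * 1 - W.b₆ * (x + x) * 1 - W.b₈ * 1 ^ 2, ?_, ?_⟩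
      · intro h3
        apply hne
        rw [h3]
        ext i
        fin_cases i <;> simp
      · ext i
        fin_cases i <;> simp
    · rw [add_self_of_Y_ne hy, sym2x_some_zero, sym2x_some_some, ev]
      have h0 : 2 * y + W.a₁ * x + W.a₃ ≠ 0 := by
        intro h
        apply hy
        rw [WeierstrassCurve.Affine.negY]
        linear_combination h
      refine ⟨(2 * y + W.a₁ * x + W.a₃) ^ 2, pow_ne_zero 2 h0, ?_⟩
      have h4 : y - W.toAffine.negY x y = 2 * y + W.a₁ * x + W.a₃ := by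
        rw [WeierstrassCurve.Affine.negY]
        ring
      have hL : (2 * y + W.a₁ * x + W.a₃) * W.toAffine.slope x x y y =
          3 * x ^ 2 + 2 * W.a₂ * x + W.a₄ - W.a₁ * y := by
        rw [WeierstrassCurve.Affine.slope_of_Y_ne rfl hy, h4, mul_div_cancel₀ _ h0]
      rw [WeierstrassCurve.Affine.addX]
      generalize W.toAffine.slope x x y y = L at hL
      generalize hDD : 2 * y + W.a₁ * x + W.a₃ = D at *
      ext i
      fin_cases i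
      · simp
        unfold WeierstrassCurve.b₄ WeierstrassCurve.b₆ WeierstrassCurve.b₈
        subst hDD
        linear_combination -(-8 * x - W.a₁ ^ 2 - 4 * W.a₂) * he -
          ((2 * y + W.a₁ * x + W.a₃) * L + (3 * x ^ 2 + 2 * W.a₂ * x + W.a₄ - W.a₁ * y) +
            W.a₁ * (2 * y + W.a₁ * x + W.a₃)) * hL
      · simp
        unfold WeierstrassCurve.b₂ WeierstrassCurve.b₄ WeierstrassCurve.b₆
        subst hDD
        linear_combination -4 * he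
      · simp
        ring

open WeierstrassCurve.Affine.Point in
theorem key [W.IsElliptic] (P Q : W.toAffine.Point) : ∃ u : K, u ≠ 0 ∧
    (fun i => (W.addSubMap i).eval (sym2x P Q)) = u • sym2x (P + Q) (P - Q) := by
  by_cases hPQ : P = Q
  · subst hPQ
    rw [sub_self]
    exact dbl W P
  by_cases hPQ' : P = -Q
  · obtain ⟨u, hu, h⟩ := dbl W P
    refine ⟨u, hu, ?_⟩
    have hQ : Q = -P := by rw [hPQ', neg_neg]
    rw [hQ, sym2x_neg_right, h, sub_neg_eq_add, add_neg_cancel, sym2x_comm]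
  rcases P with _ | ⟨x₁, y₁, h₁⟩
  · rw [← zero_def] at *
    rw [zero_add, zero_sub, sym2x_neg_right]
    refine ⟨1, one_ne_zero, ?_⟩
    rcases Q with _ | ⟨x, y, h⟩
    · exact absurd rfl hPQ
    · rw [sym2x_zero_some, sym2x_some_some, ev]
      ext i
      fin_cases i <;> simp <;> ring
  rcases Q with _ | ⟨x₂, y₂, h₂⟩
  · rw [← zero_def] at *
    rw [add_zero, sub_zero]
    refine ⟨1, one_ne_zero, ?_⟩
    rw [sym2x_some_zero, sym2x_some_some, ev]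
    ext i
    fin_cases i <;> simp <;> ring
  have hx : x₁ ≠ x₂ := by
    intro hx
    rcases (X_eq_iff (h₁ := h₁) (h₂ := h₂)).1 hx with h | h
    · exact hPQ h
    · exact hPQ' h
  have e₁ := (WeierstrassCurve.Affine.equation_iff _ _).1 h₁.1
  have e₂ := (WeierstrassCurve.Affine.equation_iff _ _).1 h₂.1
  have hD : x₁ - x₂ ≠ 0 := sub_ne_zero.2 hx
  refine ⟨(x₁ - x₂) ^ 2, pow_ne_zero 2 hD, ?_⟩
  have hL : (x₁ - x₂) * W.toAffine.slope x₁ x₂ y₁ y₂ = y₁ - y₂ := by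
    rw [WeierstrassCurve.Affine.slope_of_X_ne hx, mul_div_cancel₀ _ hD]
  have hM : (x₁ - x₂) * W.toAffine.slope x₁ x₂ y₁ (W.toAffine.negY x₂ y₂) =
      y₁ + y₂ + W.a₁ * x₂ + W.a₃ := by
    rw [WeierstrassCurve.Affine.slope_of_X_ne hx, mul_div_cancel₀ _ hD,
      WeierstrassCurve.Affine.negY]
    ring
  rw [sub_eq_add_neg (WeierstrassCurve.Affine.Point.some x₁ y₁ h₁), neg_some, add_of_X_ne hx,
    add_of_X_ne hx, sym2x_some_some, sym2x_some_some, ev]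
  simp only [WeierstrassCurve.Affine.addX]
  generalize W.toAffine.slope x₁ x₂ y₁ y₂ = L at hL
  generalize W.toAffine.slope x₁ x₂ y₁ (W.toAffine.negY x₂ y₂) = M at hM
  have hN3 : (x₁ - x₂) ^ 2 * (L ^ 2 + W.a₁ * L - W.a₂ - x₁ - x₂) =
      (y₁ - y₂) ^ 2 + W.a₁ * (y₁ - y₂) * (x₁ - x₂) - (W.a₂ + x₁ + x₂) * (x₁ - x₂) ^ 2 := by
    linear_combination ((x₁ - x₂) * L + (y₁ - y₂) + W.a₁ * (x₁ - x₂)) * hL
  have hN4 : (x₁ - x₂) ^ 2 * (M ^ 2 + W.a₁ * M - W.a₂ - x₁ - x₂) =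
      (y₁ + y₂ + W.a₁ * x₂ + W.a₃) ^ 2 + W.a₁ * (y₁ + y₂ + W.a₁ * x₂ + W.a₃) * (x₁ - x₂) -
        (W.a₂ + x₁ + x₂) * (x₁ - x₂) ^ 2 := by
    linear_combination ((x₁ - x₂) * M + (y₁ + y₂ + W.a₁ * x₂ + W.a₃) + W.a₁ * (x₁ - x₂)) * hM
  generalize L ^ 2 + W.a₁ * L - W.a₂ - x₁ - x₂ = X₃ at hN3
  generalize M ^ 2 + W.a₁ * M - W.a₂ - x₁ - x₂ = X₄ at hN4
  ext i
  fin_cases i
  · simp
    apply mul_left_cancel₀ (pow_ne_zero 2 hD)
    have hprod : (x₁ - x₂) ^ 2 * ((x₁ - x₂) ^ 2 * (X₃ * X₄)) =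
        ((y₁ - y₂) ^ 2 + W.a₁ * (y₁ - y₂) * (x₁ - x₂) - (W.a₂ + x₁ + x₂) * (x₁ - x₂) ^ 2) *
        ((y₁ + y₂ + W.a₁ * x₂ + W.a₃) ^ 2 + W.a₁ * (y₁ + y₂ + W.a₁ * x₂ + W.a₃) * (x₁ - x₂) -
        (W.a₂ + x₁ + x₂) * (x₁ - x₂) ^ 2) := by
      rw [← hN3, ← hN4]
      ring
    rw [hprod]
    unfold WeierstrassCurve.b₄ WeierstrassCurve.b₆ WeierstrassCurve.b₈
    linear_combination -(
      -x₁ ^ 3 + 2 * x₁ ^ 2 * x₂ - x₁ ^ 2 * W.a₂ + 2 * x₁ * x₂ ^ 2 + x₁ * x₂ * W.a₁ ^ 2 + 4 *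
        x₁ * x₂ * W.a₂ + x₁ * y₁ * W.a₁ + x₁ * W.a₁ * W.a₃ + x₁ * W.a₄ - 2 * x₂ ^ 3 - x₂ ^ 2 *
        W.a₁ ^ 2 - 2 * x₂ ^ 2 * W.a₂ - 2 * x₂ * y₂ * W.a₁ - x₂ * W.a₁ * W.a₃ + y₁ ^ 2 + y₁ *
        W.a₃ - 2 * y₂ ^ 2 - 2 * y₂ * W.a₃ + W.a₆) * e₁ - (
      -4 * x₁ ^ 3 + 2 * x₁ ^ 2 * x₂ - x₁ ^ 2 * W.a₁ ^ 2 - 4 * x₁ ^ 2 * W.a₂ + 2 * x₁ * x₂ ^ 2
        + x₁ * x₂ * W.a₁ ^ 2 + 4 * x₁ * x₂ * W.a₂ - x₁ * W.a₁ * W.a₃ - 2 * x₁ * W.a₄ - x₂ ^ 3
        - x₂ ^ 2 * W.a₂ + x₂ * y₂ * W.a₁ + x₂ * W.a₁ * W.a₃ + x₂ * W.a₄ + y₂ ^ 2 + y₂ * W.a₃ -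
        W.a₆) * e₂
  · simp
    have hsum : (x₁ - x₂) ^ 2 * (X₃ + X₄) = (x₁ - x₂) ^ 2 * X₃ + (x₁ - x₂) ^ 2 * X₄ := by ring
    rw [hsum, hN3, hN4]
    unfold WeierstrassCurve.b₂ WeierstrassCurve.b₄ WeierstrassCurve.b₆
    linear_combination -2 * e₁ - 2 * e₂
  · simp
    ring

end PLLaux

open WeierstrassCurve.Affine.Point PLLaux in
theorem pll_thm : PLLStmt := by
  intro K _ _ _ W _
  obtain ⟨C₁, h₁⟩ := WeierstrassCurve.abs_logHeight_addSubMap_sub_two_mul_logHeight_le W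
  obtain ⟨C₂, h₂⟩ := Height.abs_logHeight_sym2_sub_le K
  have hs : ∀ P Q : W.toAffine.Point, |Height.logHeight (sym2x P Q) -
      (Height.logHeight P.xRep + Height.logHeight Q.xRep)| ≤ C₂ := by
    intro P Q
    have e : ∀ v : Fin 2 → K, v = ![v 0, v 1] := by
      intro v
      ext i
      fin_cases i <;> rfl
    have hP := P.xRep_ne_zero
    have hQ := Q.xRep_ne_zero
    rw [e P.xRep] at hP
    rw [e Q.xRep] at hQ
    have := h₂ hP hQ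
    rw [← e, ← e] at this
    exact this
  refine ⟨C₁ + 3 * C₂, fun P Q => ?_⟩
  obtain ⟨u, hu, hk⟩ := key W P Q
  have a1 := h₁ (sym2x P Q)
  rw [hk, Height.logHeight_smul_eq_logHeight _ hu] at a1
  have a2 := hs P Q
  have a3 := hs (P + Q) (P - Q)
  rw [abs_le] at *
  constructor <;> linarith [a1.1, a1.2, a2.1, a2.2, a3.1, a3.2]

end Pool.AVR
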